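import Pool.Agent.H240.AL.Fin

/-!
# Complete scars on a closed geodesic of a surface with ergodic geodesic flow

There is a closed connected surface `M` with a smooth Riemannian metric of nonpositive curvature, whose
curvature vanishes exactly on one simple closed geodesic `S` and whose geodesic flow is ergodic, with the
following property. Every ordered orthonormal basis `u 0, u 1, …` of smooth real eigenfunctions of the
Laplacian has a set `J` of indices for which the probability measures `u j ^ 2 dA`, `j ∈ J`, converge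
weakly to the uniform measure on the closed geodesic `S` as `j → ∞` in `J`, and the number of the `j ∈ J`
with eigenvalue at most `Λ` is not `O (√Λ)`. So ergodicity of the geodesic flow does not prevent the
eigenfunctions from concentrating completely on a single closed geodesic.

How a surface is described. `Ω` is an open set of the plane with the smooth conformal metric
`exp (2 φ) |dz|²`, and `pr : Ω → M` is a continuous, open, surjective and locally injective map onto
the compact metric space `M`; points with the same image are related by a holomorphic local isometry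
over `M`. So `M` is a closed surface and the metric descends to `M`. The unit vectors at the points of
`Ω` are the pairs `(z, θ)`, the vector `exp (- φ z) exp (i θ)` at `z`; `P` is the unit tangent bundle of
`M`: two such pairs have the same image under `q` if and only if a local isometry over `M` maps one to
the other.

Ingredients of the proof. The surfaces with a flat cylinder, the ergodicity of their geodesic flow, the
variational theory of the eigenvalues and elliptic regularity are taken from the library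
(`Pool.Graph.R_seed8.Y262`, `Pool.Graph.R_seed8.Y264` and the files they import). (1) The proof of my
result `CompleteLocalization` gives, for metrics with a flat cylinder of any radius `r`, metrics
arbitrarily close to them (in the smooth topology) for which many eigenfunctions of every basis have
almost all of their mass in the cylinder. (2) By compactness this remains true, up to some eigenvalue,
for all metrics in a `C⁰` neighbourhood (`Pool.Agent.H240.CG.Stage`). (3) So a sequence of metrics can be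
chosen inductively, the flat cylinders of which shrink to a closed geodesic, and which converges smoothly
to a metric with all these properties at once (`Pool.Agent.H240.CG.Seq`); the curvature of the limit is
negative outside of the closed geodesic, and the gradient of the curvature is bounded by a power of the
curvature. (4) The geodesic flow of the limit metric is ergodic: the proof of the library for surfaces
with a flat cylinder is adapted to surfaces with one closed geodesic of curvature zero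
(`Pool.Agent.H240.CG.ErgA`, `Pool.Agent.H240.CG.ErgB`, by helper284 and helper307). (5) The identities of
Rellich on the collar of the closed geodesic show that eigenfunctions which concentrate on it are
uniformly distributed along it (`Pool.Agent.H240.AL`, with helper297, helper935, helper585, helper348).
-/

set_option autoImplicit false

open Set Filter Topology MeasureTheory
open scoped ContDiff

noncomputable section

namespace Pool.Agent.Results.MP_ed6ab2_an.ClosedGeodesicScar

/-- the partial derivative with respect to `x` -/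
def px (φ : ℂ → ℝ) (z : ℂ) : ℝ := fderiv ℝ φ z 1

/-- the partial derivative with respect to `y` -/
def py (φ : ℂ → ℝ) (z : ℂ) : ℝ := fderiv ℝ φ z Complex.I

/-- the nonnegative Laplace-Beltrami operator of the metric `exp (2 φ) |dz|²` -/
def lapl (φ v : ℂ → ℝ) (z : ℂ) : ℝ := -(Real.exp (-2 * φ z) * (px (px v) z + py (py v) z))

/-- the Gauss curvature of the metric `exp (2 φ) |dz|²` -/
def curvature (φ : ℂ → ℝ) (z : ℂ) : ℝ := lapl φ φ z

section

variable {M P : Type}

/-- `γ` is a holomorphic local isometry on the ball around `z` with radius `r`, over the surface, and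
`γ z = w` -/
def LocIso (Ω : Set ℂ) (φ : ℂ → ℝ) (pr : ℂ → M) (r : ℝ) (γ : ℂ → ℂ) (z w : ℂ) : Prop :=
  0 < r ∧ Metric.ball z r ⊆ Ω ∧ DifferentiableOn ℂ γ (Metric.ball z r) ∧ γ z = w ∧
    ∀ ζ ∈ Metric.ball z r, γ ζ ∈ Ω ∧ pr (γ ζ) = pr ζ ∧ deriv γ ζ ≠ 0 ∧
      φ (γ ζ) + Real.log ‖deriv γ ζ‖ = φ ζ

/-- `M` is a surface with a Riemannian metric which is covered by means of `pr` by the plane domain
`Ω` with the smooth metric `exp (2 φ) |dz|²` -/
structure IsSurface [TopologicalSpace M] (Ω : Set ℂ) (φ : ℂ → ℝ) (pr : ℂ → M) : Prop where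
  domain : IsOpen Ω
  smooth : ContDiffOn ℝ ∞ φ Ω
  cont : ContinuousOn pr Ω
  open_map : ∀ O : Set ℂ, IsOpen O → O ⊆ Ω → IsOpen (pr '' O)
  surj : pr '' Ω = univ
  loc_inj : ∀ z ∈ Ω, ∃ r : ℝ, 0 < r ∧ Metric.ball z r ⊆ Ω ∧ InjOn pr (Metric.ball z r)
  iso : ∀ z ∈ Ω, ∀ w ∈ Ω, pr z = pr w → ∃ (r : ℝ) (γ : ℂ → ℂ), LocIso Ω φ pr r γ z w

/-- the unit vectors `(z, θ)` (the vector `exp (- φ z) exp (i θ)` at `z`) at the points of `Ω` -/
def UV (Ω : Set ℂ) : Set (ℂ × ℝ) := {p | p.1 ∈ Ω}

/-- `P` is the unit tangent bundle of the surface and `q` maps the unit vectors at the points of `Ω`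
to `P`: two unit vectors have the same image if and only if a local isometry over the surface maps one
to the other -/
structure IsUnitTangent [TopologicalSpace P] (Ω : Set ℂ) (φ : ℂ → ℝ) (pr : ℂ → M)
    (q : ℂ × ℝ → P) : Prop where
  cont : ContinuousOn q (UV Ω)
  open_map : ∀ O : Set (ℂ × ℝ), IsOpen O → O ⊆ UV Ω → IsOpen (q '' O)
  surj : q '' UV Ω = univ
  rel : ∀ p ∈ UV Ω, ∀ p' ∈ UV Ω, (q p = q p' ↔ ∃ (r : ℝ) (γ : ℂ → ℂ),
    LocIso Ω φ pr r γ p.1 p'.1 ∧
      Complex.exp (p'.2 * Complex.I) * ‖deriv γ p.1‖ = Complex.exp (p.2 * Complex.I) * deriv γ p.1)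

/-- `μ` is the area of the surface -/
def IsAreaM [MeasurableSpace M] (Ω : Set ℂ) (φ : ℂ → ℝ) (pr : ℂ → M) (μ : Measure M) : Prop :=
  ∀ B : Set ℂ, MeasurableSet B → B ⊆ Ω → InjOn pr B →
    μ (pr '' B) = ∫⁻ z in B, ENNReal.ofReal (Real.exp (2 * φ z))

/-- `m` is the Liouville measure on the unit tangent bundle -/
def IsLiouville [MeasurableSpace P] (Ω : Set ℂ) (φ : ℂ → ℝ) (q : ℂ × ℝ → P) (m : Measure P) :
    Prop :=
  ∀ B : Set (ℂ × ℝ), MeasurableSet B → B ⊆ UV Ω → InjOn q B →
    m (q '' B) = ∫⁻ p in B, ENNReal.ofReal (Real.exp (2 * φ p.1))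

/-- the geodesic vector field: `z' = exp (- φ) exp (i θ)`,
`θ' = exp (- φ) (- φ_x sin θ + φ_y cos θ)` -/
def geod (φ : ℂ → ℝ) (p : ℂ × ℝ) : ℂ × ℝ :=
  (⟨Real.exp (-φ p.1) * Real.cos p.2, Real.exp (-φ p.1) * Real.sin p.2⟩,
    Real.exp (-φ p.1) * (-(px φ p.1) * Real.sin p.2 + py φ p.1 * Real.cos p.2))

/-- `F` is the geodesic flow (it is complete and smooth) -/
structure IsGeodesicFlow (Ω : Set ℂ) (φ : ℂ → ℝ) (F : ℝ → ℂ × ℝ → ℂ × ℝ) : Prop where
  maps : ∀ t, ∀ p ∈ UV Ω, F t p ∈ UV Ω
  zero : ∀ p ∈ UV Ω, F 0 p = p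
  ode : ∀ t, ∀ p ∈ UV Ω, HasDerivAt (fun τ => F τ p) (geod φ (F t p)) t
  smooth : ContDiffOn ℝ ∞ (fun a : ℝ × (ℂ × ℝ) => F a.1 a.2) {a | a.2 ∈ UV Ω}

/-- `t ↦ pr (x0 + i t)` is a simple closed geodesic of length `2π` of the metric, parametrised by the
arc length (the orbit of the unit vector `i` at `x0` under the geodesic flow `F`), and `S` is its image -/
structure IsClosedGeodesic (Ω : Set ℂ) (pr : ℂ → M) (F : ℝ → ℂ × ℝ → ℂ × ℝ) (x0 : ℝ) (S : Set M) :
    Prop where
  mem : ∀ z : ℂ, z.re = x0 → z ∈ Ω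
  orbit : ∀ z : ℂ, z.re = x0 → ∀ t : ℝ, F t (z, Real.pi / 2) = (z + t * Complex.I, Real.pi / 2)
  closed : ∀ z w : ℂ, z.re = x0 → w.re = x0 →
    (pr z = pr w ↔ ∃ n : ℤ, w = z + n * (2 * Real.pi * Complex.I))
  image : S = pr '' {z | z.re = x0}

/-- the geodesic flow on `P` is ergodic with respect to `m`: every invariant measurable set is null or
has a null complement -/
def IsErgodic [MeasurableSpace P] (Ω : Set ℂ) (q : ℂ × ℝ → P) (F : ℝ → ℂ × ℝ → ℂ × ℝ)
    (m : Measure P) : Prop :=
  ∀ A : Set P, MeasurableSet A → (∀ t, ∀ p ∈ UV Ω, (q (F t p) ∈ A ↔ q p ∈ A)) →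
    m A = 0 ∨ m Aᶜ = 0

/-- `u` is a smooth real eigenfunction of the Laplacian of the surface with the eigenvalue `lam` -/
def IsEigenfunction (Ω : Set ℂ) (φ : ℂ → ℝ) (pr : ℂ → M) (lam : ℝ) (u : M → ℝ) : Prop :=
  ContDiffOn ℝ ∞ (fun z => u (pr z)) Ω ∧
    ∀ z ∈ Ω, lapl φ (fun z => u (pr z)) z = lam * u (pr z)

/-- `u 0, u 1, …` is an orthonormal basis of `L²` of smooth real eigenfunctions of the Laplacian of the
surface, ordered so that the eigenvalues `lam 0 ≤ lam 1 ≤ …` increase; the last condition says that the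
span of the functions `u j` is dense in `L²` -/
structure IsEigenbasis [MeasurableSpace M] (Ω : Set ℂ) (φ : ℂ → ℝ) (pr : ℂ → M) (μ : Measure M)
    (u : ℕ → M → ℝ) (lam : ℕ → ℝ) : Prop where
  eig : ∀ j, IsEigenfunction Ω φ pr (lam j) (u j)
  mono : Monotone lam
  orth : ∀ i j, ∫ x, u i x * u j x ∂μ = if i = j then 1 else 0
  total : ∀ f : M → ℝ, MemLp f 2 μ → (∀ j, ∫ x, f x * u j x ∂μ = 0) → f =ᵐ[μ] 0

/-- the mean value of `f` on the closed geodesic -/
def geodMean (pr : ℂ → M) (x0 : ℝ) (f : M → ℝ) : ℝ :=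
  (2 * Real.pi)⁻¹ * ∫ t in (0 : ℝ)..(2 * Real.pi), f (pr (x0 + t * Complex.I))

end

/-- the number of the indices `j` in `J` with `lam j ≤ Λ` -/
def number (lam : ℕ → ℝ) (J : Set ℕ) (Λ : ℝ) : ℕ := {j | j ∈ J ∧ lam j ≤ Λ}.ncard

/-- **Complete scars on a closed geodesic.** There are a closed connected surface `M` (with the unit
tangent bundle `P`) with a smooth Riemannian metric of nonpositive curvature and a closed set `S` such
that: `S` is a simple closed geodesic; the curvature vanishes at a point if and only if the point is in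
`S`; the geodesic flow is ergodic with respect to the Liouville measure; there is an ordered orthonormal
basis of smooth real eigenfunctions of the Laplacian; and every such basis `u j` (with the eigenvalues
`lam j`) has a set `J` of indices for which the measures `u j ^ 2 dA` converge weakly to the uniform
measure on the closed geodesic `S` as `j → ∞` in `J`, and for which the number of the `j ∈ J` with
`lam j ≤ Λ` is not `O (√Λ)`. -/
theorem result : ∃ (M P : Type) (_ : MetricSpace M) (_ : CompactSpace M) (_ : ConnectedSpace M)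
    (_ : MeasurableSpace M) (_ : BorelSpace M) (_ : MetricSpace P) (_ : CompactSpace P)
    (_ : MeasurableSpace P) (_ : BorelSpace P) (Ω : Set ℂ) (φ : ℂ → ℝ) (pr : ℂ → M)
    (q : ℂ × ℝ → P) (μ : Measure M) (m : Measure P) (F : ℝ → ℂ × ℝ → ℂ × ℝ) (x0 : ℝ) (S : Set M),
    IsSurface Ω φ pr ∧ IsUnitTangent Ω φ pr q ∧ IsAreaM Ω φ pr μ ∧ IsLiouville Ω φ q m ∧
    IsGeodesicFlow Ω φ F ∧ IsClosedGeodesic Ω pr F x0 S ∧ IsClosed S ∧ μ S = 0 ∧
    (∀ z ∈ Ω, curvature φ z ≤ 0) ∧ (∀ z ∈ Ω, curvature φ z = 0 ↔ pr z ∈ S) ∧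
    IsErgodic Ω q F m ∧
    (∃ (u : ℕ → M → ℝ) (lam : ℕ → ℝ), IsEigenbasis Ω φ pr μ u lam) ∧
    ∀ (u : ℕ → M → ℝ) (lam : ℕ → ℝ), IsEigenbasis Ω φ pr μ u lam →
      ∃ J : Set ℕ, (∀ f : M → ℝ, Continuous f →
          Tendsto (fun j => ∫ x, f x * (u j x) ^ 2 ∂μ) (atTop ⊓ 𝓟 J) (𝓝 (geodMean pr x0 f))) ∧
        ∀ C : ℝ, ∃ᶠ Λ : ℝ in atTop, C * Real.sqrt Λ < number lam J Λ := by
  obtain ⟨M, P, i1, i2, i3, i4, i5, i6, i7, i8, i9, Ω, φ, pr, q, μ, m, F, ψ, G, x0, δ, τ1, hGd, hG0,
    hG1, hUT, hA, hfin, hm, hF, hline, hK, hK0, hE, hcl, hnull, hbas, hall, hψs, hτ1, hψn, hψz, hτ,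
    hfam, hnear, hval⟩ := Pool.Agent.H240.AL.fin8
  have hsub : ∀ z : ℂ, z.re = x0 → |z.re - x0| < δ := fun z hz => by
    rw [hz, sub_self, abs_zero]
    exact hGd.δp
  refine ⟨M, P, i1, i2, i3, i4, i5, i6, i7, i8, i9, Ω, φ, pr, q, μ, m, F, x0, pr '' {z | z.re = x0},
    ⟨hUT.opn, hUT.smooth, hUT.contp, hUT.opnp, hUT.surjp, hUT.injp, ?_⟩,
    ⟨hUT.contq, hUT.opnq, hUT.surjq, ?_⟩, hA, hm, ⟨hF.maps, hF.zero, hF.ode, hF.smooth⟩,
    ⟨fun z hz => (hGd.rot z (hsub z hz)).1, hline,
      fun z w hz hw => hGd.per z w (hsub z hz) (hsub w hw), rfl⟩, hcl, hnull, hK, hK0, hE, ?_, ?_⟩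
  · intro z hz w hw h
    obtain ⟨θ', r, γ, h1, h2, h3, h4, h5, -⟩ := hUT.deck z hz w hw h 0
    exact ⟨r, γ, h1, h2, h3, h4, h5⟩
  · intro p hp p' hp'
    rw [hUT.rel p hp p' hp']
    constructor
    · rintro ⟨r, γ, h1, h2, h3, h4, h5, h6⟩
      exact ⟨r, γ, ⟨h1, h2, h3, h4, h5⟩, h6⟩
    · rintro ⟨r, γ, ⟨h1, h2, h3, h4, h5⟩, h6⟩
      exact ⟨r, γ, h1, h2, h3, h4, h5, h6⟩
  · obtain ⟨u, lam, hu⟩ := hbas
    exact ⟨u, lam, hu.eig, hu.mono, hu.orth, hu.total⟩
  · intro u lam hu
    obtain ⟨-, -, J, hJ1, hJ2, -⟩ := hall u lam ⟨hu.eig, hu.mono, hu.orth, hu.total⟩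
    exact ⟨J, hJ2, hJ1⟩

end Pool.Agent.Results.MP_ed6ab2_an.ClosedGeodesicScar
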