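import Pool.Agent.H240.AL.Fin

/-!
# Scars on a closed geodesic of negatively curved surfaces

There are a closed connected surface `M` with a smooth Riemannian metric `g` of nonpositive curvature,
a simple closed geodesic `S`, with negative curvature outside of `S`, and a smooth function `ψ` such that
for `0 < τ < τ₁` the metric `g_τ = exp (2 τ ψ) g` has negative curvature and `S` is a closed geodesic of
`g_τ` too, with the following property. For every neighbourhood of the uniform measure on the closed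
geodesic `S` (in the weak topology, given by finitely many continuous functions and `ε > 0`) and all `C`
and `Λ₀` there are `Λ₁` and `η > 0` such that for all metrics `exp (2 f) g` with `|f| < η`, in particular
for `g_τ` with small `τ > 0`, and for every ordered orthonormal basis `u j` of smooth real eigenfunctions
there is `Λ` with `Λ₀ ≤ Λ ≤ Λ₁` such that the measure `u j ^ 2 dA` belongs to the neighbourhood for more
than `C √Λ` indices `j` with eigenvalue at most `Λ`.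

So for negatively curved surfaces the equidistribution of the eigenfunctions cannot be uniform in the
metric: the measures of eigenfunctions with arbitrarily large eigenvalues of negatively curved surfaces
come arbitrarily close to the uniform measure on a single closed geodesic.

How a surface is described. `Ω` is an open set of the plane with the smooth conformal metric
`exp (2 φ) |dz|²`, and `pr : Ω → M` is a continuous, open, surjective and locally injective map onto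
the compact metric space `M`; points with the same image are related by a holomorphic local isometry
over `M`. So `M` is a closed surface and the metric descends to `M`. The unit vectors at the points of
`Ω` are the pairs `(z, θ)`, the vector `exp (- φ z) exp (i θ)` at `z`.

Ingredients of the proof: the theorem on complete scars for the metric `g`
(`MP_ed6ab2_an.ClosedGeodesicScar`, see there), and a compactness argument for the eigenfunctions of a
convergent sequence of metrics (`Pool.Agent.H240.AL.StabW`).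
-/

set_option autoImplicit false

open Set Filter Topology MeasureTheory
open scoped ContDiff

noncomputable section

namespace Pool.Agent.Results.MP_07c750_an.ClosedGeodesicScarsNear

/-- the partial derivative with respect to `x` -/
def px (φ : ℂ → ℝ) (z : ℂ) : ℝ := fderiv ℝ φ z 1

/-- the partial derivative with respect to `y` -/
def py (φ : ℂ → ℝ) (z : ℂ) : ℝ := fderiv ℝ φ z Complex.I

/-- the nonnegative Laplace-Beltrami operator of the metric `exp (2 φ) |dz|²` -/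
def lapl (φ v : ℂ → ℝ) (z : ℂ) : ℝ := -(Real.exp (-2 * φ z) * (px (px v) z + py (py v) z))

/-- the Gauss curvature of the metric `exp (2 φ) |dz|²` -/
def curvature (φ : ℂ → ℝ) (z : ℂ) : ℝ := lapl φ φ z

section

variable {M P : Type}

/-- `γ` is a holomorphic local isometry on the ball around `z` with radius `r`, over the surface, and
`γ z = w` -/
def LocIso (Ω : Set ℂ) (φ : ℂ → ℝ) (pr : ℂ → M) (r : ℝ) (γ : ℂ → ℂ) (z w : ℂ) : Prop :=
  0 < r ∧ Metric.ball z r ⊆ Ω ∧ DifferentiableOn ℂ γ (Metric.ball z r) ∧ γ z = w ∧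
    ∀ ζ ∈ Metric.ball z r, γ ζ ∈ Ω ∧ pr (γ ζ) = pr ζ ∧ deriv γ ζ ≠ 0 ∧
      φ (γ ζ) + Real.log ‖deriv γ ζ‖ = φ ζ

/-- `M` is a surface with a Riemannian metric which is covered by means of `pr` by the plane domain
`Ω` with the smooth metric `exp (2 φ) |dz|²` -/
structure IsSurface [TopologicalSpace M] (Ω : Set ℂ) (φ : ℂ → ℝ) (pr : ℂ → M) : Prop where
  domain : IsOpen Ω
  smooth : ContDiffOn ℝ ∞ φ Ω
  cont : ContinuousOn pr Ω
  open_map : ∀ O : Set ℂ, IsOpen O → O ⊆ Ω → IsOpen (pr '' O)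
  surj : pr '' Ω = univ
  loc_inj : ∀ z ∈ Ω, ∃ r : ℝ, 0 < r ∧ Metric.ball z r ⊆ Ω ∧ InjOn pr (Metric.ball z r)
  iso : ∀ z ∈ Ω, ∀ w ∈ Ω, pr z = pr w → ∃ (r : ℝ) (γ : ℂ → ℂ), LocIso Ω φ pr r γ z w

/-- the unit vectors `(z, θ)` (the vector `exp (- φ z) exp (i θ)` at `z`) at the points of `Ω` -/
def UV (Ω : Set ℂ) : Set (ℂ × ℝ) := {p | p.1 ∈ Ω}

/-- `μ` is the area of the surface -/
def IsAreaM [MeasurableSpace M] (Ω : Set ℂ) (φ : ℂ → ℝ) (pr : ℂ → M) (μ : Measure M) : Prop :=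
  ∀ B : Set ℂ, MeasurableSet B → B ⊆ Ω → InjOn pr B →
    μ (pr '' B) = ∫⁻ z in B, ENNReal.ofReal (Real.exp (2 * φ z))

/-- the geodesic vector field: `z' = exp (- φ) exp (i θ)`,
`θ' = exp (- φ) (- φ_x sin θ + φ_y cos θ)` -/
def geod (φ : ℂ → ℝ) (p : ℂ × ℝ) : ℂ × ℝ :=
  (⟨Real.exp (-φ p.1) * Real.cos p.2, Real.exp (-φ p.1) * Real.sin p.2⟩,
    Real.exp (-φ p.1) * (-(px φ p.1) * Real.sin p.2 + py φ p.1 * Real.cos p.2))

/-- `F` is the geodesic flow (it is complete and smooth) -/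
structure IsGeodesicFlow (Ω : Set ℂ) (φ : ℂ → ℝ) (F : ℝ → ℂ × ℝ → ℂ × ℝ) : Prop where
  maps : ∀ t, ∀ p ∈ UV Ω, F t p ∈ UV Ω
  zero : ∀ p ∈ UV Ω, F 0 p = p
  ode : ∀ t, ∀ p ∈ UV Ω, HasDerivAt (fun τ => F τ p) (geod φ (F t p)) t
  smooth : ContDiffOn ℝ ∞ (fun a : ℝ × (ℂ × ℝ) => F a.1 a.2) {a | a.2 ∈ UV Ω}

/-- `t ↦ pr (x0 + i t)` is a simple closed geodesic of length `2π` of the metric, parametrised by the
arc length (the orbit of the unit vector `i` at `x0` under the geodesic flow `F`), and `S` is its image -/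
structure IsClosedGeodesic (Ω : Set ℂ) (pr : ℂ → M) (F : ℝ → ℂ × ℝ → ℂ × ℝ) (x0 : ℝ) (S : Set M) :
    Prop where
  mem : ∀ z : ℂ, z.re = x0 → z ∈ Ω
  orbit : ∀ z : ℂ, z.re = x0 → ∀ t : ℝ, F t (z, Real.pi / 2) = (z + t * Complex.I, Real.pi / 2)
  closed : ∀ z w : ℂ, z.re = x0 → w.re = x0 →
    (pr z = pr w ↔ ∃ n : ℤ, w = z + n * (2 * Real.pi * Complex.I))
  image : S = pr '' {z | z.re = x0}

/-- `u` is a smooth real eigenfunction of the Laplacian of the surface with the eigenvalue `lam` -/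
def IsEigenfunction (Ω : Set ℂ) (φ : ℂ → ℝ) (pr : ℂ → M) (lam : ℝ) (u : M → ℝ) : Prop :=
  ContDiffOn ℝ ∞ (fun z => u (pr z)) Ω ∧
    ∀ z ∈ Ω, lapl φ (fun z => u (pr z)) z = lam * u (pr z)

/-- `u 0, u 1, …` is an orthonormal basis of `L²` of smooth real eigenfunctions of the Laplacian of the
surface, ordered so that the eigenvalues `lam 0 ≤ lam 1 ≤ …` increase; the last condition says that the
span of the functions `u j` is dense in `L²` -/
structure IsEigenbasis [MeasurableSpace M] (Ω : Set ℂ) (φ : ℂ → ℝ) (pr : ℂ → M) (μ : Measure M)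
    (u : ℕ → M → ℝ) (lam : ℕ → ℝ) : Prop where
  eig : ∀ j, IsEigenfunction Ω φ pr (lam j) (u j)
  mono : Monotone lam
  orth : ∀ i j, ∫ x, u i x * u j x ∂μ = if i = j then 1 else 0
  total : ∀ f : M → ℝ, MemLp f 2 μ → (∀ j, ∫ x, f x * u j x ∂μ = 0) → f =ᵐ[μ] 0

/-- the mean value of `f` on the closed geodesic -/
def geodMean (pr : ℂ → M) (x0 : ℝ) (f : M → ℝ) : ℝ :=
  (2 * Real.pi)⁻¹ * ∫ t in (0 : ℝ)..(2 * Real.pi), f (pr (x0 + t * Complex.I))

end

/-- the number of the `j` with `lam j ≤ Λ` for which `∫ h u j ^ 2 dA` differs from the mean value of `h`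
on the closed geodesic by at most `ε`, for all functions `h` of the finite set `T` -/
def numberNear {M : Type} [TopologicalSpace M] [MeasurableSpace M] (pr : ℂ → M) (x0 : ℝ)
    (μ : Measure M) (u : ℕ → M → ℝ) (lam : ℕ → ℝ) (T : Finset C(M, ℝ)) (ε Λ : ℝ) : ℕ :=
  {j | (∀ h ∈ T, |(∫ x, h x * (u j x) ^ 2 ∂μ) - geodMean pr x0 h| ≤ ε) ∧ lam j ≤ Λ}.ncard

/-- **Scars on a closed geodesic of negatively curved surfaces.** There are a closed connected surface
`M`, a smooth Riemannian metric `φ` on `M` of nonpositive curvature, which vanishes exactly on the image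
`S` of a simple closed geodesic, and a smooth function `ψ` such that for `0 < τ < τ₁` the metric
`φ + τ ψ` has negative curvature and the same closed geodesic; and for every finite set `T` of continuous
functions, all `C`, `Λ₀` and `ε > 0` there are `Λ₁` and `η > 0` such that for every smooth function `f`
with `|f| < η` and every ordered orthonormal basis `u j` of smooth real eigenfunctions for the metric
`φ + f` some `Λ` with `Λ₀ ≤ Λ ≤ Λ₁` has more than `C √Λ` indices `j` with `lam j ≤ Λ` for which the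
integrals of the functions of `T` against `u j ^ 2 dA` are, up to `ε`, the mean values on `S`. -/
theorem result : ∃ (M : Type) (_ : MetricSpace M) (_ : CompactSpace M) (_ : ConnectedSpace M)
    (_ : MeasurableSpace M) (_ : BorelSpace M) (Ω : Set ℂ) (φ : ℂ → ℝ) (pr : ℂ → M)
    (F : ℝ → ℂ × ℝ → ℂ × ℝ) (ψ : M → ℝ) (x0 τ₁ : ℝ) (S : Set M),
    IsSurface Ω φ pr ∧ IsGeodesicFlow Ω φ F ∧ IsClosedGeodesic Ω pr F x0 S ∧ IsClosed S ∧
    (∀ z ∈ Ω, curvature φ z ≤ 0) ∧ (∀ z ∈ Ω, curvature φ z = 0 ↔ pr z ∈ S) ∧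
    ContDiffOn ℝ ∞ (fun z => ψ (pr z)) Ω ∧ 0 < τ₁ ∧
    (∀ τ : ℝ, 0 < τ → τ < τ₁ → (∀ z ∈ Ω, curvature (fun z => φ z + τ * ψ (pr z)) z < 0) ∧
      ∃ F' : ℝ → ℂ × ℝ → ℂ × ℝ, IsGeodesicFlow Ω (fun z => φ z + τ * ψ (pr z)) F' ∧
        IsClosedGeodesic Ω pr F' x0 S) ∧
    (∀ f : M → ℝ, ContDiffOn ℝ ∞ (fun z => f (pr z)) Ω →
      IsSurface Ω (fun z => φ z + f (pr z)) pr ∧ ∃ μ : Measure M,
        IsAreaM Ω (fun z => φ z + f (pr z)) pr μ ∧
        ∃ (u : ℕ → M → ℝ) (lam : ℕ → ℝ), IsEigenbasis Ω (fun z => φ z + f (pr z)) pr μ u lam) ∧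
    ∀ (T : Finset C(M, ℝ)) (C ε Λ₀ : ℝ), 0 < ε → ∃ (Λ₁ η : ℝ), 0 < η ∧
      ∀ f : M → ℝ, ContDiffOn ℝ ∞ (fun z => f (pr z)) Ω → (∀ x, |f x| < η) →
      ∀ μ : Measure M, IsAreaM Ω (fun z => φ z + f (pr z)) pr μ →
      ∀ (u : ℕ → M → ℝ) (lam : ℕ → ℝ), IsEigenbasis Ω (fun z => φ z + f (pr z)) pr μ u lam →
      ∃ Λ : ℝ, Λ₀ ≤ Λ ∧ Λ ≤ Λ₁ ∧ C * Real.sqrt Λ < numberNear pr x0 μ u lam T ε Λ := by
  obtain ⟨M, P, i1, i2, i3, i4, i5, i6, i7, i8, i9, Ω, φ, pr, q, μ, m, F, ψ, G, x0, δ, τ1, hGd, hG0,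
    hG1, hUT, hA, hfin, hm, hF, hline, hK, hK0, hE, hcl, hnull, hbas, hall, hψs, hτ1, hψn, hψz, hτ,
    hfam, hnear, hval⟩ := Pool.Agent.H240.AL.fin8
  have hsub : ∀ z : ℂ, z.re = x0 → |z.re - x0| < δ := fun z hz => by
    rw [hz, sub_self, abs_zero]
    exact hGd.δp
  have hsurf : ∀ φ' : ℂ → ℝ, Pool.Agent.Y262.EG.IsUT Ω φ' pr q → IsSurface Ω φ' pr := by
    intro φ' hUT
    refine ⟨hUT.opn, hUT.smooth, hUT.contp, hUT.opnp, hUT.surjp, hUT.injp, ?_⟩
    intro z hz w hw h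
    obtain ⟨θ', r, γ, h1, h2, h3, h4, h5, -⟩ := hUT.deck z hz w hw h 0
    exact ⟨r, γ, h1, h2, h3, h4, h5⟩
  refine ⟨M, i1, i2, i3, i4, i5, Ω, φ, pr, F, ψ, x0, τ1, pr '' {z | z.re = x0},
    hsurf φ hUT, ⟨hF.maps, hF.zero, hF.ode, hF.smooth⟩,
    ⟨fun z hz => (hGd.rot z (hsub z hz)).1, hline,
      fun z w hz hw => hGd.per z w (hsub z hz) (hsub w hw), rfl⟩, hcl, hK, hK0, hψs, hτ1, ?_, ?_, ?_⟩
  · intro τ h1 h2
    obtain ⟨h3, F', hF', h4⟩ := hτ τ h1 h2
    exact ⟨h3, F', ⟨hF'.maps, hF'.zero, hF'.ode, hF'.smooth⟩,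
      ⟨fun z hz => (hGd.rot z (hsub z hz)).1, h4,
        fun z w hz hw => hGd.per z w (hsub z hz) (hsub w hw), rfl⟩⟩
  · intro f hf
    obtain ⟨h1, μ', h2, u, lam, hu⟩ := hfam f hf
    exact ⟨hsurf _ h1, μ', h2, u, lam, hu.eig, hu.mono, hu.orth, hu.total⟩
  · intro T C ε Λ₀ hε
    obtain ⟨Λ₁, η, hη, h⟩ := hnear T C ε Λ₀ hε
    exact ⟨Λ₁, η, hη, fun f hf hfη μ' hμ' u lam hu =>
      h f hf hfη μ' hμ' u lam ⟨hu.eig, hu.mono, hu.orth, hu.total⟩⟩

end Pool.Agent.Results.MP_07c750_an.ClosedGeodesicScarsNear
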