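import Pool.Agent.H240.GU.Fin3
import Pool.Agent.H328.GU.Hyp

/-!
# Scars near every negatively curved surface

Let `(M, g)` be ANY closed connected surface of negative curvature of the form `Ω / G` (a group `G` acts
freely, properly discontinuously and cocompactly by holomorphic maps on the plane domain `Ω`, and `g` is
given by an invariant metric `exp (2 φ) |dz|²` on `Ω`), and let `S` be ANY simple closed geodesic of `g`
(scaled to length `2π`) which is straight in the coordinate: the strip `|Re z - x₀| < δ` belongs to `Ω` and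
is embedded in `M` modulo `2πi`, and `φ = φ_x = 0` on the line `Re z = x₀`, which covers `S`. For instance
`(M, g)` can be any closed orientable hyperbolic surface and `S` any simple closed geodesic of it (take for
`Ω` the hyperbolic plane of curvature `- k²` as the strip `|Re z| < π / (2 k)` with the metric
`|dz|² / cos (k Re z) ^ 2`, and `x₀ = 0`), or a negatively curved metric `exp (2 h) g` of this kind for
which `h` and its normal derivative vanish on `S`.

Then there is a constant `K` such that for every `ε > 0` there are smooth functions `f` and `ψ` on `M`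
and `τ₁ > 0` such that for `0 ≤ τ < τ₁` the function `f + τ ψ` has `C¹` norm at most `ε` (with respect to
`g`), the metric `g_τ = exp (2 (f + τ ψ)) g` has curvature at least `- K`, `S` is a closed geodesic
of `g_τ`, and

* for `τ > 0` the curvature of `g_τ` is negative everywhere;
* for `τ = 0` it is negative outside of `S` and zero on `S`, and every ordered orthonormal basis `u j` of
  smooth real eigenfunctions of `g_0` has a subsequence, whose counting function is not `O (√Λ)`, along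
  which the measures `u j ^ 2 dA` converge weakly to the uniform measure on `S`;
* for every neighbourhood of the uniform measure on `S` in the weak topology (given by a finite set `T`
  of continuous functions and `ε' > 0`) and all `C`, `Λ₀` there are `Λ₁` and `η > 0` such that for ALL
  smooth metrics `exp (2 f') g` with `|f' - f| < η`, in particular for the negatively curved metrics
  `g_τ` with small `τ > 0`, and for every basis as above some `Λ` with `Λ₀ ≤ Λ ≤ Λ₁` has more than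
  `C √Λ` indices `j` with eigenvalue at most `Λ` for which `u j ^ 2 dA` is in the neighbourhood.

So every metric `g` of this kind, in particular every hyperbolic metric, is a `C¹` limit (with uniformly
bounded curvature) of negatively curved metrics of its conformal class with such windows of eigenfunctions
scarred by `S`, at arbitrarily high energy; the windows are stable under `C⁰` small changes of the metric.

Ingredients of the proof: `φ` is replaced by a regularized maximum of `φ` and a convex function of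
`Re z`, which makes the metric flat exactly on a thin cylinder around `S`; a theorem on complete
localization in flat cylinders for almost all parameters of a perturbation
(`Pool.Agent.H240.SC.SurfThm`, here without a symmetry assumption); the identities of Rellich show the
uniform distribution in the direction of `S`; eigenfunctions are stable under small changes of the
metric; the perturbations are summed up so that the cylinders shrink to `S`.
-/

set_option autoImplicit false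

open Set Filter Topology MeasureTheory
open scoped ContDiff

noncomputable section

namespace Pool.Agent.Results.MP_07c750_an.ScarsNearEveryMetric

/-- the partial derivative with respect to `x` -/
def px (φ : ℂ → ℝ) (z : ℂ) : ℝ := fderiv ℝ φ z 1

/-- the partial derivative with respect to `y` -/
def py (φ : ℂ → ℝ) (z : ℂ) : ℝ := fderiv ℝ φ z Complex.I

/-- the nonnegative Laplace-Beltrami operator of the metric `exp (2 φ) |dz|²` -/
def lapl (φ v : ℂ → ℝ) (z : ℂ) : ℝ := -(Real.exp (-2 * φ z) * (px (px v) z + py (py v) z))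

/-- the Gauss curvature of the metric `exp (2 φ) |dz|²` -/
def curvature (φ : ℂ → ℝ) (z : ℂ) : ℝ := lapl φ φ z

/-- The group `G` acts on the connected open set `Ω` of the plane by holomorphic maps `a γ`, freely
(modulo the elements which act trivially), properly discontinuously and cocompactly. -/
structure IsCocompactAction (G : Type) [Group G] (Ω : Set ℂ) (a : G → ℂ → ℂ) : Prop where
  domain : IsOpen Ω
  conn : IsPreconnected Ω
  nonempty : Ω.Nonempty
  maps : ∀ γ, ∀ z ∈ Ω, a γ z ∈ Ω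
  one : ∀ z ∈ Ω, a 1 z = z
  mul : ∀ γ γ', ∀ z ∈ Ω, a (γ * γ') z = a γ (a γ' z)
  hol : ∀ γ, DifferentiableOn ℂ (a γ) Ω
  free : ∀ γ, ∀ z ∈ Ω, a γ z = z → ∀ w ∈ Ω, a γ w = w
  proper : ∀ K : Set ℂ, IsCompact K → K ⊆ Ω → {γ | (a γ '' K ∩ K).Nonempty}.Finite
  cocompact : ∃ K : Set ℂ, IsCompact K ∧ K ⊆ Ω ∧ ∀ z ∈ Ω, ∃ γ, a γ z ∈ K

/-- the smooth metric `exp (2 φ) |dz|²` on `Ω` is invariant under the group -/
def IsInvariantMetric {G : Type} (Ω : Set ℂ) (a : G → ℂ → ℂ) (φ : ℂ → ℝ) : Prop :=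
  ContDiffOn ℝ ∞ φ Ω ∧ ∀ γ, ∀ z ∈ Ω, deriv (a γ) z ≠ 0 ∧
    φ (a γ z) + Real.log ‖deriv (a γ) z‖ = φ z

section

variable {M : Type}

/-- `M` is the quotient of `Ω` by the group, with the projection `pr` (a covering) -/
structure IsQuotient [TopologicalSpace M] {G : Type} (Ω : Set ℂ) (a : G → ℂ → ℂ) (pr : ℂ → M) :
    Prop where
  cont : ContinuousOn pr Ω
  open_map : ∀ O : Set ℂ, IsOpen O → O ⊆ Ω → IsOpen (pr '' O)
  surj : pr '' Ω = univ
  rel : ∀ z ∈ Ω, ∀ w ∈ Ω, (pr z = pr w ↔ ∃ γ, a γ z = w)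
  loc_inj : ∀ z ∈ Ω, ∃ r : ℝ, 0 < r ∧ Metric.ball z r ⊆ Ω ∧ InjOn pr (Metric.ball z r)
  conn : IsPreconnected (univ : Set M)

/-- an isothermal collar: the strip `|Re z - x₀| < δ` is embedded modulo `2πi`; the metric is
`|dz|²` on the line `Re z = x₀`, and this line is a geodesic -/
structure IsCollar (Ω : Set ℂ) (φ : ℂ → ℝ) (pr : ℂ → M) (x₀ δ : ℝ) : Prop where
  pos : 0 < δ
  sub : ∀ z : ℂ, |z.re - x₀| < δ → z ∈ Ω
  embedded : ∀ z w : ℂ, |z.re - x₀| < δ → |w.re - x₀| < δ →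
    (pr z = pr w ↔ ∃ n : ℤ, w = z + n * (2 * Real.pi * Complex.I))
  line : ∀ z : ℂ, z.re = x₀ → φ z = 0 ∧ px φ z = 0

/-- `M = Ω / G` is a closed connected surface with the metric `exp (2 φ) |dz|²`, and the line
`Re z = x₀` covers a simple closed geodesic with a collar -/
structure IsSurfaceWithCollar (G : Type) [Group G] [TopologicalSpace M] (Ω : Set ℂ)
    (a : G → ℂ → ℂ) (φ : ℂ → ℝ) (pr : ℂ → M) (x₀ δ : ℝ) : Prop where
  action : IsCocompactAction G Ω a
  quotient : IsQuotient Ω a pr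
  metric : IsInvariantMetric Ω a φ
  collar : IsCollar Ω φ pr x₀ δ

/-- the unit vectors `(z, θ)` (the vector `exp (- φ z) exp (i θ)` at `z`) at the points of `Ω` -/
def UV (Ω : Set ℂ) : Set (ℂ × ℝ) := {p | p.1 ∈ Ω}

/-- `μ` is the area of the surface -/
def IsAreaM [MeasurableSpace M] (Ω : Set ℂ) (φ : ℂ → ℝ) (pr : ℂ → M) (μ : Measure M) : Prop :=
  ∀ B : Set ℂ, MeasurableSet B → B ⊆ Ω → InjOn pr B →
    μ (pr '' B) = ∫⁻ z in B, ENNReal.ofReal (Real.exp (2 * φ z))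

/-- the geodesic vector field: `z' = exp (- φ) exp (i θ)`,
`θ' = exp (- φ) (- φ_x sin θ + φ_y cos θ)` -/
def geod (φ : ℂ → ℝ) (p : ℂ × ℝ) : ℂ × ℝ :=
  (⟨Real.exp (-φ p.1) * Real.cos p.2, Real.exp (-φ p.1) * Real.sin p.2⟩,
    Real.exp (-φ p.1) * (-(px φ p.1) * Real.sin p.2 + py φ p.1 * Real.cos p.2))

/-- `F` is the geodesic flow (it is complete and smooth) -/
structure IsGeodesicFlow (Ω : Set ℂ) (φ : ℂ → ℝ) (F : ℝ → ℂ × ℝ → ℂ × ℝ) : Prop where
  maps : ∀ t, ∀ p ∈ UV Ω, F t p ∈ UV Ω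
  zero : ∀ p ∈ UV Ω, F 0 p = p
  ode : ∀ t, ∀ p ∈ UV Ω, HasDerivAt (fun τ => F τ p) (geod φ (F t p)) t
  smooth : ContDiffOn ℝ ∞ (fun a : ℝ × (ℂ × ℝ) => F a.1 a.2) {a | a.2 ∈ UV Ω}

/-- `t ↦ pr (x₀ + i t)` is a simple closed geodesic of length `2π` of the metric `exp (2 φ) |dz|²`,
parametrised by the arc length, and `S` is its image -/
def IsClosedGeodesic (Ω : Set ℂ) (φ : ℂ → ℝ) (pr : ℂ → M) (x₀ : ℝ) (S : Set M) : Prop :=
  (∀ z : ℂ, z.re = x₀ → z ∈ Ω) ∧
  (∃ F, IsGeodesicFlow Ω φ F ∧ ∀ z : ℂ, z.re = x₀ → ∀ t : ℝ,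
    F t (z, Real.pi / 2) = (z + t * Complex.I, Real.pi / 2)) ∧
  (∀ z w : ℂ, z.re = x₀ → w.re = x₀ →
    (pr z = pr w ↔ ∃ n : ℤ, w = z + n * (2 * Real.pi * Complex.I))) ∧
  S = pr '' {z | z.re = x₀}

/-- `u` is a smooth real eigenfunction of the Laplacian of the surface with the eigenvalue `lam` -/
def IsEigenfunction (Ω : Set ℂ) (φ : ℂ → ℝ) (pr : ℂ → M) (lam : ℝ) (u : M → ℝ) : Prop :=
  ContDiffOn ℝ ∞ (fun z => u (pr z)) Ω ∧
    ∀ z ∈ Ω, lapl φ (fun z => u (pr z)) z = lam * u (pr z)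

/-- `u 0, u 1, …` is an orthonormal basis of `L²` of smooth real eigenfunctions of the Laplacian of the
surface, ordered so that the eigenvalues `lam 0 ≤ lam 1 ≤ …` increase; the last condition says that the
span of the functions `u j` is dense in `L²` -/
structure IsEigenbasis [MeasurableSpace M] (Ω : Set ℂ) (φ : ℂ → ℝ) (pr : ℂ → M) (μ : Measure M)
    (u : ℕ → M → ℝ) (lam : ℕ → ℝ) : Prop where
  eig : ∀ j, IsEigenfunction Ω φ pr (lam j) (u j)
  mono : Monotone lam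
  orth : ∀ i j, ∫ x, u i x * u j x ∂μ = if i = j then 1 else 0
  total : ∀ f : M → ℝ, MemLp f 2 μ → (∀ j, ∫ x, f x * u j x ∂μ = 0) → f =ᵐ[μ] 0

/-- the smooth function `f` and its gradient with respect to the metric `exp (2 φ) |dz|²` are bounded
by `ε` -/
structure C1Small (Ω : Set ℂ) (φ : ℂ → ℝ) (pr : ℂ → M) (f : M → ℝ) (ε : ℝ) : Prop where
  smooth : ContDiffOn ℝ ∞ (fun z => f (pr z)) Ω
  value : ∀ x, |f x| ≤ ε
  gradient : ∀ z ∈ Ω, Real.exp (-φ z) * ‖fderiv ℝ (fun z => f (pr z)) z‖ ≤ ε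

/-- the mean value of `f` on the closed geodesic -/
def geodMean (pr : ℂ → M) (x₀ : ℝ) (f : M → ℝ) : ℝ :=
  (2 * Real.pi)⁻¹ * ∫ t in (0 : ℝ)..(2 * Real.pi), f (pr (x₀ + t * Complex.I))

end

/-- the number of the `j` with `lam j ≤ Λ` for which `∫ h u j ^ 2 dA` differs from the mean value of `h`
on the closed geodesic by at most `ε`, for all functions `h` of the finite set `T` -/
def numberNear {M : Type} [TopologicalSpace M] [MeasurableSpace M] (pr : ℂ → M) (x₀ : ℝ)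
    (μ : Measure M) (u : ℕ → M → ℝ) (lam : ℕ → ℝ) (T : Finset C(M, ℝ)) (ε Λ : ℝ) : ℕ :=
  {j | (∀ h ∈ T, |(∫ x, h x * (u j x) ^ 2 ∂μ) - geodMean pr x₀ h| ≤ ε) ∧ lam j ≤ Λ}.ncard

/-- **Scars near every negatively curved surface and each of its closed geodesics.** The first part says
that the hypotheses can be satisfied by a closed hyperbolic surface (of curvature `- k`). -/
theorem result :
    (∃ (G : Type) (_ : Group G) (M : Type) (_ : MetricSpace M) (_ : CompactSpace M) (Ω : Set ℂ)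
      (a : G → ℂ → ℂ) (φ : ℂ → ℝ) (pr : ℂ → M) (x₀ δ k : ℝ),
      IsSurfaceWithCollar G Ω a φ pr x₀ δ ∧ 0 < k ∧ ∀ z ∈ Ω, curvature φ z = -k) ∧
    ∀ (G : Type) [Group G] (M : Type) [MetricSpace M] [CompactSpace M] [MeasurableSpace M]
      [BorelSpace M] (Ω : Set ℂ) (a : G → ℂ → ℂ) (φ : ℂ → ℝ) (pr : ℂ → M) (x₀ δ : ℝ),
      IsSurfaceWithCollar G Ω a φ pr x₀ δ → (∀ z ∈ Ω, curvature φ z < 0) →
    ∃ S : Set M, IsClosedGeodesic Ω φ pr x₀ S ∧ IsClosed S ∧
    (∀ f : M → ℝ, ContDiffOn ℝ ∞ (fun z => f (pr z)) Ω →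
      IsInvariantMetric Ω a (fun z => φ z + f (pr z)) ∧
      ∃ μ : Measure M, IsAreaM Ω (fun z => φ z + f (pr z)) pr μ ∧ IsFiniteMeasure μ ∧ μ S = 0 ∧
        ∃ (u : ℕ → M → ℝ) (lam : ℕ → ℝ), IsEigenbasis Ω (fun z => φ z + f (pr z)) pr μ u lam) ∧
    ∃ K : ℝ, ∀ ε : ℝ, 0 < ε → ∃ (f ψ : M → ℝ) (τ₁ : ℝ), 0 < τ₁ ∧
      (∀ τ : ℝ, 0 ≤ τ → τ < τ₁ → C1Small Ω φ pr (fun x => f x + τ * ψ x) ε ∧
        IsClosedGeodesic Ω (fun z => φ z + (f (pr z) + τ * ψ (pr z))) pr x₀ S ∧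
        ∀ z ∈ Ω, -K ≤ curvature (fun z => φ z + (f (pr z) + τ * ψ (pr z))) z ∧
          (0 < τ → curvature (fun z => φ z + (f (pr z) + τ * ψ (pr z))) z < 0)) ∧
      (∀ z ∈ Ω, curvature (fun z => φ z + f (pr z)) z ≤ 0 ∧
        (curvature (fun z => φ z + f (pr z)) z = 0 ↔ pr z ∈ S)) ∧
      (∀ μ : Measure M, IsAreaM Ω (fun z => φ z + f (pr z)) pr μ →
        ∀ (u : ℕ → M → ℝ) (lam : ℕ → ℝ), IsEigenbasis Ω (fun z => φ z + f (pr z)) pr μ u lam →
        Tendsto lam atTop atTop ∧ ∃ J : Set ℕ,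
          (∀ C : ℝ, ∃ᶠ Λ : ℝ in atTop,
            C * Real.sqrt Λ < ({j | j ∈ J ∧ lam j ≤ Λ}.ncard : ℝ)) ∧
          ∀ h : M → ℝ, Continuous h → Tendsto (fun j => ∫ x, h x * (u j x) ^ 2 ∂μ)
            (atTop ⊓ 𝓟 J) (𝓝 (geodMean pr x₀ h))) ∧
      ∀ (T : Finset C(M, ℝ)) (C ε' Λ₀ : ℝ), 0 < ε' → ∃ (Λ₁ η : ℝ), 0 < η ∧
        ∀ f' : M → ℝ, ContDiffOn ℝ ∞ (fun z => f' (pr z)) Ω → (∀ x, |f' x - f x| < η) →
        ∀ μ : Measure M, IsAreaM Ω (fun z => φ z + f' (pr z)) pr μ →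
        ∀ (u : ℕ → M → ℝ) (lam : ℕ → ℝ), IsEigenbasis Ω (fun z => φ z + f' (pr z)) pr μ u lam →
        ∃ Λ : ℝ, Λ₀ ≤ Λ ∧ Λ ≤ Λ₁ ∧ C * Real.sqrt Λ < numberNear pr x₀ μ u lam T ε' Λ := by
  refine ⟨?_, ?_⟩
  · obtain ⟨G, iG, Ω, a, φ, M, iM, iC, pr, x₀, δ, k, hA, hI, hpr, hCo, hl, hk, hc⟩ :=
      Pool.Agent.H328.GU.stHyp
    exact ⟨G, iG, M, iM, iC, Ω, a, φ, pr, x₀, δ, k, ⟨⟨hA.opn, hA.conn, hA.ne, hA.maps, hA.one,
      hA.mul, hA.hol, hA.free, hA.fin, hA.cpt⟩, ⟨hpr.cont, hpr.opn, hpr.surj, hpr.rel, hpr.inj,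
      hpr.conn⟩, hI, ⟨hCo.δp, hCo.sub, hCo.per, hl⟩⟩, hk, hc⟩
  intro G _ M _ _ _ _ Ω a φ pr x₀ δ hS hK
  obtain ⟨hG, hM, hφ, hC⟩ := hS
  have hA : Pool.Agent.Y262.EX.Act G Ω a := ⟨hG.domain, hG.conn, hG.nonempty, hG.maps, hG.one,
    hG.mul, hG.hol, hG.free, hG.proper, hG.cocompact⟩
  have hI : Pool.Agent.Y262.EX.Inva Ω φ a := hφ
  have hpr : Pool.Agent.Y262.EX.PrM Ω a pr :=
    ⟨hM.cont, hM.open_map, hM.surj, hM.rel, hM.loc_inj, hM.conn⟩
  have hCo : Pool.Agent.H240.GU.Co Ω pr x₀ δ := ⟨hC.pos, hC.sub, hC.embedded⟩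
  obtain ⟨P, iP, cP, q, -, hUT⟩ := Pool.Agent.H240.GU.act_ut hA hI hpr
  obtain ⟨hcl, hge, hall, K, hmain⟩ := Pool.Agent.H240.GU.fin9 M P Ω φ pr q x₀ δ hUT hCo hC.line hK
  have hg : ∀ f : M → ℝ, ContDiffOn ℝ ∞ (fun z => f (pr z)) Ω →
      Pool.Agent.H240.GU.Ge Ω (fun z => φ z + f (pr z)) x₀ →
      IsClosedGeodesic Ω (fun z => φ z + f (pr z)) pr x₀ (pr '' {z | z.re = x₀}) := by
    intro f hf hG'
    obtain ⟨Fl, hFl, hl⟩ := Pool.Agent.H240.GU.act_geo hA hI hpr hf hG'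
    exact ⟨fun z hz => hCo.sub z (hCo.line hz), ⟨Fl, ⟨hFl.maps, hFl.zero, hFl.ode, hFl.smooth⟩, hl⟩,
      fun z w hz hw => hCo.per z w (hCo.line hz) (hCo.line hw), rfl⟩
  refine ⟨pr '' {z | z.re = x₀}, ?_, hcl, fun f hf => ?_, K, fun ε hε => ?_⟩
  · have h0 := hg (fun _ => 0) contDiffOn_const (by simpa using hge)
    simpa using h0
  · obtain ⟨-, μ, a1, a2, a3, u, lam, hu⟩ := hall f hf
    exact ⟨Pool.Agent.H240.GU.act_inva hA hI hpr hf, μ, a1, a2, a3, u, lam, hu.eig, hu.mono,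
      hu.orth, hu.total⟩
  · obtain ⟨f, ψ, τ₁, hτ₁, b1, b2, b3, b4⟩ := hmain ε hε
    refine ⟨f, ψ, τ₁, hτ₁, fun τ h1 h2 => ?_, b2, fun μ hμ u lam hu => ?_,
      fun T C ε' Λ₀ hε' => ?_⟩
    · obtain ⟨c1, c2, c3⟩ := b1 τ h1 h2
      exact ⟨⟨c1.sm, c1.c0, c1.c1⟩, hg (fun x => f x + τ * ψ x) c1.sm c2, c3⟩
    · exact b3 μ hμ u lam ⟨hu.eig, hu.mono, hu.orth, hu.total⟩
    · obtain ⟨Λ₁, η, hη, h⟩ := b4 T C ε' Λ₀ hε'
      exact ⟨Λ₁, η, hη, fun f' hf' hfη μ hμ u lam hu =>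
        h f' hf' hfη μ hμ u lam ⟨hu.eig, hu.mono, hu.orth, hu.total⟩⟩

end Pool.Agent.Results.MP_07c750_an.ScarsNearEveryMetric
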