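import Pool.Agent.H240.AL.Fin

/-!
# Collapse of the value distribution of eigenfunctions

There are a closed connected surface `M` with a smooth Riemannian metric `g` of nonpositive curvature,
which vanishes exactly on a simple closed geodesic, with ergodic geodesic flow, and a smooth function `ψ`
such that the metrics `exp (2 τ ψ) g`, `0 < τ < τ₁`, have negative curvature, with the following
properties. (a) Every ordered orthonormal basis `u j` of smooth real eigenfunctions for `g` has a set `J`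
of indices along which the laws of the random variables `u j` on the probability space `(M, dA / Vol)`
converge weakly to the point mass at `0` (not to a normal distribution), and the number of the `j ∈ J`
with eigenvalue at most `Λ` is not `O (√Λ)`. (b) For all `C`, `Λ₀` and `ε > 0` there are `Λ₁` and `η > 0`
such that for all metrics `exp (2 f) g` with `|f| < η`, in particular for the negatively curved metrics
`exp (2 τ ψ) g` with small `τ > 0`, and for every ordered orthonormal basis `u j` of smooth real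
eigenfunctions there is `Λ` with `Λ₀ ≤ Λ ≤ Λ₁` such that for more than `C √Λ` indices `j` with eigenvalue
at most `Λ` the area of the set `|u j| ≥ ε` is at most `ε`.

How a surface is described. `Ω` is an open set of the plane with the smooth conformal metric
`exp (2 φ) |dz|²`, and `pr : Ω → M` is a continuous, open, surjective and locally injective map onto
the compact metric space `M`; points with the same image are related by a holomorphic local isometry
over `M`. So `M` is a closed surface and the metric descends to `M`. The unit vectors at the points of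
`Ω` are the pairs `(z, θ)`, the vector `exp (- φ z) exp (i θ)` at `z`; `P` is the unit tangent bundle of
`M`: two such pairs have the same image under `q` if and only if a local isometry over `M` maps one to
the other.

Ingredients of the proof: the theorem on complete scars for the metric `g`
(`MP_ed6ab2_an.ClosedGeodesicScar`, see there): the eigenfunctions concentrate on a set of area zero. For
(b) a compactness argument for the eigenfunctions of a convergent sequence of metrics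
(`Pool.Agent.H240.NL.Stab`).
-/

set_option autoImplicit false

open Set Filter Topology MeasureTheory
open scoped ContDiff

noncomputable section

namespace Pool.Agent.Results.MP_a52643_an.ValueLawCollapse

/-- the partial derivative with respect to `x` -/
def px (φ : ℂ → ℝ) (z : ℂ) : ℝ := fderiv ℝ φ z 1

/-- the partial derivative with respect to `y` -/
def py (φ : ℂ → ℝ) (z : ℂ) : ℝ := fderiv ℝ φ z Complex.I

/-- the nonnegative Laplace-Beltrami operator of the metric `exp (2 φ) |dz|²` -/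
def lapl (φ v : ℂ → ℝ) (z : ℂ) : ℝ := -(Real.exp (-2 * φ z) * (px (px v) z + py (py v) z))

/-- the Gauss curvature of the metric `exp (2 φ) |dz|²` -/
def curvature (φ : ℂ → ℝ) (z : ℂ) : ℝ := lapl φ φ z

section

variable {M P : Type}

/-- `γ` is a holomorphic local isometry on the ball around `z` with radius `r`, over the surface, and
`γ z = w` -/
def LocIso (Ω : Set ℂ) (φ : ℂ → ℝ) (pr : ℂ → M) (r : ℝ) (γ : ℂ → ℂ) (z w : ℂ) : Prop :=
  0 < r ∧ Metric.ball z r ⊆ Ω ∧ DifferentiableOn ℂ γ (Metric.ball z r) ∧ γ z = w ∧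
    ∀ ζ ∈ Metric.ball z r, γ ζ ∈ Ω ∧ pr (γ ζ) = pr ζ ∧ deriv γ ζ ≠ 0 ∧
      φ (γ ζ) + Real.log ‖deriv γ ζ‖ = φ ζ

/-- `M` is a surface with a Riemannian metric which is covered by means of `pr` by the plane domain
`Ω` with the smooth metric `exp (2 φ) |dz|²` -/
structure IsSurface [TopologicalSpace M] (Ω : Set ℂ) (φ : ℂ → ℝ) (pr : ℂ → M) : Prop where
  domain : IsOpen Ω
  smooth : ContDiffOn ℝ ∞ φ Ω
  cont : ContinuousOn pr Ω
  open_map : ∀ O : Set ℂ, IsOpen O → O ⊆ Ω → IsOpen (pr '' O)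
  surj : pr '' Ω = univ
  loc_inj : ∀ z ∈ Ω, ∃ r : ℝ, 0 < r ∧ Metric.ball z r ⊆ Ω ∧ InjOn pr (Metric.ball z r)
  iso : ∀ z ∈ Ω, ∀ w ∈ Ω, pr z = pr w → ∃ (r : ℝ) (γ : ℂ → ℂ), LocIso Ω φ pr r γ z w

/-- the unit vectors `(z, θ)` (the vector `exp (- φ z) exp (i θ)` at `z`) at the points of `Ω` -/
def UV (Ω : Set ℂ) : Set (ℂ × ℝ) := {p | p.1 ∈ Ω}

/-- `P` is the unit tangent bundle of the surface and `q` maps the unit vectors at the points of `Ω`
to `P`: two unit vectors have the same image if and only if a local isometry over the surface maps one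
to the other -/
structure IsUnitTangent [TopologicalSpace P] (Ω : Set ℂ) (φ : ℂ → ℝ) (pr : ℂ → M)
    (q : ℂ × ℝ → P) : Prop where
  cont : ContinuousOn q (UV Ω)
  open_map : ∀ O : Set (ℂ × ℝ), IsOpen O → O ⊆ UV Ω → IsOpen (q '' O)
  surj : q '' UV Ω = univ
  rel : ∀ p ∈ UV Ω, ∀ p' ∈ UV Ω, (q p = q p' ↔ ∃ (r : ℝ) (γ : ℂ → ℂ),
    LocIso Ω φ pr r γ p.1 p'.1 ∧
      Complex.exp (p'.2 * Complex.I) * ‖deriv γ p.1‖ = Complex.exp (p.2 * Complex.I) * deriv γ p.1)

/-- `μ` is the area of the surface -/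
def IsAreaM [MeasurableSpace M] (Ω : Set ℂ) (φ : ℂ → ℝ) (pr : ℂ → M) (μ : Measure M) : Prop :=
  ∀ B : Set ℂ, MeasurableSet B → B ⊆ Ω → InjOn pr B →
    μ (pr '' B) = ∫⁻ z in B, ENNReal.ofReal (Real.exp (2 * φ z))

/-- `m` is the Liouville measure on the unit tangent bundle -/
def IsLiouville [MeasurableSpace P] (Ω : Set ℂ) (φ : ℂ → ℝ) (q : ℂ × ℝ → P) (m : Measure P) :
    Prop :=
  ∀ B : Set (ℂ × ℝ), MeasurableSet B → B ⊆ UV Ω → InjOn q B →
    m (q '' B) = ∫⁻ p in B, ENNReal.ofReal (Real.exp (2 * φ p.1))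

/-- the geodesic vector field: `z' = exp (- φ) exp (i θ)`,
`θ' = exp (- φ) (- φ_x sin θ + φ_y cos θ)` -/
def geod (φ : ℂ → ℝ) (p : ℂ × ℝ) : ℂ × ℝ :=
  (⟨Real.exp (-φ p.1) * Real.cos p.2, Real.exp (-φ p.1) * Real.sin p.2⟩,
    Real.exp (-φ p.1) * (-(px φ p.1) * Real.sin p.2 + py φ p.1 * Real.cos p.2))

/-- `F` is the geodesic flow (it is complete and smooth) -/
structure IsGeodesicFlow (Ω : Set ℂ) (φ : ℂ → ℝ) (F : ℝ → ℂ × ℝ → ℂ × ℝ) : Prop where
  maps : ∀ t, ∀ p ∈ UV Ω, F t p ∈ UV Ω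
  zero : ∀ p ∈ UV Ω, F 0 p = p
  ode : ∀ t, ∀ p ∈ UV Ω, HasDerivAt (fun τ => F τ p) (geod φ (F t p)) t
  smooth : ContDiffOn ℝ ∞ (fun a : ℝ × (ℂ × ℝ) => F a.1 a.2) {a | a.2 ∈ UV Ω}

/-- `t ↦ pr (x0 + i t)` is a simple closed geodesic of length `2π` of the metric, parametrised by the
arc length (the orbit of the unit vector `i` at `x0` under the geodesic flow `F`), and `S` is its image -/
structure IsClosedGeodesic (Ω : Set ℂ) (pr : ℂ → M) (F : ℝ → ℂ × ℝ → ℂ × ℝ) (x0 : ℝ) (S : Set M) :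
    Prop where
  mem : ∀ z : ℂ, z.re = x0 → z ∈ Ω
  orbit : ∀ z : ℂ, z.re = x0 → ∀ t : ℝ, F t (z, Real.pi / 2) = (z + t * Complex.I, Real.pi / 2)
  closed : ∀ z w : ℂ, z.re = x0 → w.re = x0 →
    (pr z = pr w ↔ ∃ n : ℤ, w = z + n * (2 * Real.pi * Complex.I))
  image : S = pr '' {z | z.re = x0}

/-- the geodesic flow on `P` is ergodic with respect to `m`: every invariant measurable set is null or
has a null complement -/
def IsErgodic [MeasurableSpace P] (Ω : Set ℂ) (q : ℂ × ℝ → P) (F : ℝ → ℂ × ℝ → ℂ × ℝ)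
    (m : Measure P) : Prop :=
  ∀ A : Set P, MeasurableSet A → (∀ t, ∀ p ∈ UV Ω, (q (F t p) ∈ A ↔ q p ∈ A)) →
    m A = 0 ∨ m Aᶜ = 0

/-- `u` is a smooth real eigenfunction of the Laplacian of the surface with the eigenvalue `lam` -/
def IsEigenfunction (Ω : Set ℂ) (φ : ℂ → ℝ) (pr : ℂ → M) (lam : ℝ) (u : M → ℝ) : Prop :=
  ContDiffOn ℝ ∞ (fun z => u (pr z)) Ω ∧
    ∀ z ∈ Ω, lapl φ (fun z => u (pr z)) z = lam * u (pr z)

/-- `u 0, u 1, …` is an orthonormal basis of `L²` of smooth real eigenfunctions of the Laplacian of the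
surface, ordered so that the eigenvalues `lam 0 ≤ lam 1 ≤ …` increase; the last condition says that the
span of the functions `u j` is dense in `L²` -/
structure IsEigenbasis [MeasurableSpace M] (Ω : Set ℂ) (φ : ℂ → ℝ) (pr : ℂ → M) (μ : Measure M)
    (u : ℕ → M → ℝ) (lam : ℕ → ℝ) : Prop where
  eig : ∀ j, IsEigenfunction Ω φ pr (lam j) (u j)
  mono : Monotone lam
  orth : ∀ i j, ∫ x, u i x * u j x ∂μ = if i = j then 1 else 0
  total : ∀ f : M → ℝ, MemLp f 2 μ → (∀ j, ∫ x, f x * u j x ∂μ = 0) → f =ᵐ[μ] 0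

end

/-- the number of the indices `j` in `J` with `lam j ≤ Λ` -/
def number (lam : ℕ → ℝ) (J : Set ℕ) (Λ : ℝ) : ℕ := {j | j ∈ J ∧ lam j ≤ Λ}.ncard

/-- **Collapse of the value distribution.** There are a closed connected surface `M`, a smooth Riemannian
metric `φ` on `M` of nonpositive curvature, which vanishes exactly on a closed set `S`, the image of a
simple closed geodesic, with ergodic geodesic flow, and a smooth function `ψ` such that the metrics
`φ + τ ψ`, `0 < τ < τ₁`, have negative curvature, with the following properties.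
(a) Every ordered orthonormal basis `u j` of smooth real eigenfunctions for `φ` has a set `J` of indices
along which the laws of the `u j` converge weakly to the point mass at `0`, and for which the number of
the `j ∈ J` with `lam j ≤ Λ` is not `O (√Λ)`.
(b) For all `C`, `Λ₀` and `ε > 0` there are `Λ₁` and `η > 0` such that for every smooth function `f` with
`|f| < η` and every ordered orthonormal basis `u j` of smooth real eigenfunctions for the metric `φ + f`
some `Λ` with `Λ₀ ≤ Λ ≤ Λ₁` has more than `C √Λ` indices `j` with `lam j ≤ Λ` for which the area of the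
set `ε ≤ |u j|` is at most `ε`. -/
theorem result : ∃ (M P : Type) (_ : MetricSpace M) (_ : CompactSpace M) (_ : ConnectedSpace M)
    (_ : MeasurableSpace M) (_ : BorelSpace M) (_ : MetricSpace P) (_ : CompactSpace P)
    (_ : MeasurableSpace P) (_ : BorelSpace P) (Ω : Set ℂ) (φ : ℂ → ℝ) (pr : ℂ → M)
    (q : ℂ × ℝ → P) (μ : Measure M) (m : Measure P) (F : ℝ → ℂ × ℝ → ℂ × ℝ) (ψ : M → ℝ)
    (x0 τ₁ : ℝ) (S : Set M),
    IsSurface Ω φ pr ∧ IsUnitTangent Ω φ pr q ∧ IsAreaM Ω φ pr μ ∧ IsFiniteMeasure μ ∧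
    IsLiouville Ω φ q m ∧ IsGeodesicFlow Ω φ F ∧ IsClosedGeodesic Ω pr F x0 S ∧ IsClosed S ∧
    (∀ z ∈ Ω, curvature φ z ≤ 0) ∧ (∀ z ∈ Ω, curvature φ z = 0 ↔ pr z ∈ S) ∧
    IsErgodic Ω q F m ∧ ContDiffOn ℝ ∞ (fun z => ψ (pr z)) Ω ∧ 0 < τ₁ ∧
    (∀ τ : ℝ, 0 < τ → τ < τ₁ → ∀ z ∈ Ω, curvature (fun z => φ z + τ * ψ (pr z)) z < 0) ∧
    (∀ f : M → ℝ, ContDiffOn ℝ ∞ (fun z => f (pr z)) Ω →
      IsSurface Ω (fun z => φ z + f (pr z)) pr ∧ ∃ μ : Measure M,
        IsAreaM Ω (fun z => φ z + f (pr z)) pr μ ∧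
        ∃ (u : ℕ → M → ℝ) (lam : ℕ → ℝ), IsEigenbasis Ω (fun z => φ z + f (pr z)) pr μ u lam) ∧
    (∀ (u : ℕ → M → ℝ) (lam : ℕ → ℝ), IsEigenbasis Ω φ pr μ u lam →
      ∃ J : Set ℕ, (∀ g : ℝ → ℝ, Continuous g → (∃ B : ℝ, ∀ t, |g t| ≤ B) →
          Tendsto (fun j => (μ.real univ)⁻¹ * ∫ x, g (u j x) ∂μ) (atTop ⊓ 𝓟 J) (𝓝 (g 0))) ∧
        ∀ C : ℝ, ∃ᶠ Λ : ℝ in atTop, C * Real.sqrt Λ < number lam J Λ) ∧
    ∀ C ε Λ₀ : ℝ, 0 < ε → ∃ (Λ₁ η : ℝ), 0 < η ∧
      ∀ f : M → ℝ, ContDiffOn ℝ ∞ (fun z => f (pr z)) Ω → (∀ x, |f x| < η) →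
      ∀ μ' : Measure M, IsAreaM Ω (fun z => φ z + f (pr z)) pr μ' →
      ∀ (u : ℕ → M → ℝ) (lam : ℕ → ℝ), IsEigenbasis Ω (fun z => φ z + f (pr z)) pr μ' u lam →
      ∃ Λ : ℝ, Λ₀ ≤ Λ ∧ Λ ≤ Λ₁ ∧
        C * Real.sqrt Λ < number lam {j | μ'.real {x | ε ≤ |u j x|} ≤ ε} Λ := by
  obtain ⟨M, P, i1, i2, i3, i4, i5, i6, i7, i8, i9, Ω, φ, pr, q, μ, m, F, ψ, G, x0, δ, τ1, hGd, hG0,
    hG1, hUT, hA, hfin, hm, hF, hline, hK, hK0, hE, hcl, hnull, hbas, hall, hψs, hτ1, hψn, hψz, hτ,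
    hfam, hnear, hval⟩ := Pool.Agent.H240.AL.fin8
  have hsub : ∀ z : ℂ, z.re = x0 → |z.re - x0| < δ := fun z hz => by
    rw [hz, sub_self, abs_zero]
    exact hGd.δp
  have hsurf : ∀ φ' : ℂ → ℝ, Pool.Agent.Y262.EG.IsUT Ω φ' pr q → IsSurface Ω φ' pr := by
    intro φ' hUT
    refine ⟨hUT.opn, hUT.smooth, hUT.contp, hUT.opnp, hUT.surjp, hUT.injp, ?_⟩
    intro z hz w hw h
    obtain ⟨θ', r, γ, h1, h2, h3, h4, h5, -⟩ := hUT.deck z hz w hw h 0
    exact ⟨r, γ, h1, h2, h3, h4, h5⟩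
  refine ⟨M, P, i1, i2, i3, i4, i5, i6, i7, i8, i9, Ω, φ, pr, q, μ, m, F, ψ, x0, τ1,
    pr '' {z | z.re = x0}, hsurf φ hUT,
    ⟨hUT.contq, hUT.opnq, hUT.surjq, ?_⟩, hA, hfin, hm, ⟨hF.maps, hF.zero, hF.ode, hF.smooth⟩,
    ⟨fun z hz => (hGd.rot z (hsub z hz)).1, hline,
      fun z w hz hw => hGd.per z w (hsub z hz) (hsub w hw), rfl⟩, hcl, hK, hK0, hE, hψs, hτ1,
    fun τ h1 h2 => (hτ τ h1 h2).1, ?_, ?_, ?_⟩
  · intro p hp p' hp'
    rw [hUT.rel p hp p' hp']
    constructor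
    · rintro ⟨r, γ, h1, h2, h3, h4, h5, h6⟩
      exact ⟨r, γ, ⟨h1, h2, h3, h4, h5⟩, h6⟩
    · rintro ⟨r, γ, ⟨h1, h2, h3, h4, h5⟩, h6⟩
      exact ⟨r, γ, h1, h2, h3, h4, h5, h6⟩
  · intro f hf
    obtain ⟨h1, μ', h2, u, lam, hu⟩ := hfam f hf
    exact ⟨hsurf _ h1, μ', h2, u, lam, hu.eig, hu.mono, hu.orth, hu.total⟩
  · intro u lam hu
    obtain ⟨-, hint, J, hJ1, hJ2, hJ3⟩ := hall u lam ⟨hu.eig, hu.mono, hu.orth, hu.total⟩
    refine ⟨J, fun g hg hB => ?_, hJ1⟩
    obtain ⟨B, hB⟩ := hB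
    have hm : ∀ j, AEStronglyMeasurable (u j) μ := fun j =>
      (Pool.Agent.H240.NL.cont_of hUT (hu.eig j).1.continuousOn).aestronglyMeasurable
    have h1 := (Pool.Agent.H240.CG.law_collapse hm hJ3 hg hB).const_mul (μ.real univ)⁻¹
    have hne : μ.real univ ≠ 0 := by
      intro h0
      have h2 : μ univ = 0 := by
        rcases (ENNReal.toReal_eq_zero_iff _).1 h0 with h3 | h3
        · exact h3
        · exact absurd h3 (measure_ne_top μ univ)
      have h3 := hu.orth 0 0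
      rw [if_pos rfl, Measure.measure_univ_eq_zero.1 h2, integral_zero_measure] at h3
      exact zero_ne_one h3
    rw [← mul_assoc, inv_mul_cancel₀ hne, one_mul] at h1
    exact h1
  · intro C ε Λ₀ hε
    obtain ⟨Λ₁, η, hη, h⟩ := hval C ε Λ₀ hε
    exact ⟨Λ₁, η, hη, fun f hf hfη μ' hμ' u lam hu =>
      h f hf hfη μ' hμ' u lam ⟨hu.eig, hu.mono, hu.orth, hu.total⟩⟩

end Pool.Agent.Results.MP_a52643_an.ValueLawCollapse
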